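import Mathlib

/-!
Families of permutations: `t`-intersecting and `(t-1)`-intersection-free families.
-/

namespace Pool.Agent.H17.PermInt

/-- the number of positions in which two permutations agree -/
def agr {n : ℕ} (σ τ : Equiv.Perm (Fin n)) : ℕ := (Finset.univ.filter fun i => σ i = τ i).card

/-- `F` is `t`-intersecting -/
def IsIntersecting {n : ℕ} (t : ℕ) (F : Finset (Equiv.Perm (Fin n))) : Prop :=
  ∀ σ ∈ F, ∀ τ ∈ F, t ≤ agr σ τ

/-- `F` is `(t-1)`-intersection-free -/
def IsAvoiding {n : ℕ} (t : ℕ) (F : Finset (Equiv.Perm (Fin n))) : Prop :=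
  ∀ σ ∈ F, ∀ τ ∈ F, σ ≠ τ → agr σ τ ≠ t - 1

/-- `F` has maximum size among the families with property `Q` -/
def IsLargest {n : ℕ} (Q : Finset (Equiv.Perm (Fin n)) → Prop)
    (F : Finset (Equiv.Perm (Fin n))) : Prop :=
  Q F ∧ ∀ G, Q G → G.card ≤ F.card

/-- The two extremal problems coincide: the largest `(t-1)`-intersection-free families in `S_n`
are exactly the largest `t`-intersecting families. -/
def Coincide (n t : ℕ) : Prop :=
  ∀ F : Finset (Equiv.Perm (Fin n)),
    IsLargest (IsAvoiding t) F ↔ IsLargest (IsIntersecting t) F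

end Pool.Agent.H17.PermInt
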