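import Mathlib
import Pool.Agent.H17.PermInt.Defs

/-!
Basic facts; the case `n ≤ 2t - 1`.
-/

namespace Pool.Agent.H17.PermInt

open Finset Equiv

variable {n : ℕ}

theorem agr_self (σ : Perm (Fin n)) : agr σ σ = n := by
  simp [agr]

theorem agr_comm (σ τ : Perm (Fin n)) : agr σ τ = agr τ σ := by
  unfold agr
  congr 1
  ext i
  simp [eq_comm]

theorem agr_mul_left (π σ τ : Perm (Fin n)) : agr (π * σ) (π * τ) = agr σ τ := by
  unfold agr
  congr 1
  ext i
  simp

theorem IsIntersecting.avoiding {t : ℕ} (ht : 1 ≤ t) {F : Finset (Perm (Fin n))}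
    (h : IsIntersecting t F) : IsAvoiding t F := by
  intro σ hσ τ hτ _ h1
  have := h σ hσ τ hτ
  omega

/-- Union of `F` and `πF`. -/
theorem doubling {t : ℕ} (ht : 1 ≤ t) (htn : t ≤ n) {F : Finset (Perm (Fin n))}
    (hF : IsIntersecting t F) (π : Perm (Fin n))
    (hcross : ∀ σ ∈ F, ∀ τ ∈ F, agr σ (π * τ) + 2 ≤ t) :
    ∃ G : Finset (Perm (Fin n)), IsAvoiding t G ∧ 2 * F.card ≤ G.card := by
  classical
  refine ⟨F ∪ F.image (π * ·), ?_, ?_⟩
  · intro σ hσ τ hτ _ h1
    rw [mem_union] at hσ hτ
    rcases hσ with hσ | hσ <;> rcases hτ with hτ | hτ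
    · have := hF σ hσ τ hτ
      omega
    · rw [mem_image] at hτ
      obtain ⟨τ', hτ', rfl⟩ := hτ
      have := hcross σ hσ τ' hτ'
      omega
    · rw [mem_image] at hσ
      obtain ⟨σ', hσ', rfl⟩ := hσ
      have := hcross τ hτ σ' hσ'
      rw [agr_comm] at this
      omega
    · rw [mem_image] at hσ hτ
      obtain ⟨σ', hσ', rfl⟩ := hσ
      obtain ⟨τ', hτ', rfl⟩ := hτ
      rw [agr_mul_left] at h1
      have := hF σ' hσ' τ' hτ'
      omega
  · rw [card_union_of_disjoint, card_image_of_injective _ (mul_right_injective π), two_mul]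
    rw [disjoint_left]
    intro σ hσ hσ'
    rw [mem_image] at hσ'
    obtain ⟨τ, hτ, h⟩ := hσ'
    have := hcross σ hσ τ hτ
    rw [h, agr_self] at this
    omega

theorem exists_largest (Q : Finset (Perm (Fin n)) → Prop) (h : ∃ F, Q F) :
    ∃ F, IsLargest Q F := by
  classical
  obtain ⟨F, hF, hmax⟩ := Finset.exists_max_image
    (Finset.univ.filter fun F : Finset (Perm (Fin n)) => Q F) Finset.card
    (by obtain ⟨F, hF⟩ := h; exact ⟨F, by simp [hF]⟩)
  refine ⟨F, (mem_filter.mp hF).2, fun G hG => hmax G (by simp [hG])⟩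

theorem singleton_intersecting {t : ℕ} (htn : t ≤ n) (σ : Perm (Fin n)) :
    IsIntersecting t {σ} := by
  intro a ha b hb
  rw [mem_singleton] at ha hb
  subst ha
  subst hb
  rw [agr_self]
  exact htn

theorem not_coincide_of_double {t : ℕ} (htn : t ≤ n)
    (h : ∀ F : Finset (Perm (Fin n)), IsIntersecting t F →
      ∃ G : Finset (Perm (Fin n)), IsAvoiding t G ∧ 2 * F.card ≤ G.card) : ¬ Coincide n t := by
  intro hc
  obtain ⟨F, hF⟩ := exists_largest (IsIntersecting t) ⟨_, singleton_intersecting htn (1 : Perm (Fin n))⟩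
  have hF' := (hc F).mpr hF
  obtain ⟨G, hG, hGF⟩ := h F hF.1
  have h1 := hF'.2 G hG
  have h2 := hF.2 _ (singleton_intersecting htn (1 : Perm (Fin n)))
  rw [card_singleton] at h2
  omega

/-- a set invariant under the rotation is trivial -/
theorem rotate_invariant {m : ℕ} (Y : Finset (Fin (m + 2)))
    (hY : ∀ y, y ∉ Y → (finRotate (m + 2)).symm y ∉ Y) (hne : Y.Nonempty) : Y = univ := by
  by_contra hcon
  obtain ⟨z, hz⟩ : ∃ z, z ∉ Y := by
    by_contra h
    push Not at h
    exact hcon (Finset.eq_univ_iff_forall.mpr h)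
  have h1 : ∀ k : ℕ, (((finRotate (m + 2))⁻¹ : Perm (Fin (m + 2))) ^ k) z ∉ Y := by
    intro k
    induction k with
    | zero => simpa using hz
    | succ k ih =>
      rw [pow_succ']
      exact hY _ ih
  obtain ⟨y, hy⟩ := hne
  have hcyc : Equiv.Perm.IsCycle ((finRotate (m + 2))⁻¹ : Perm (Fin (m + 2))) :=
    (isCycle_finRotate (n := m)).inv
  have hsup : ∀ x, ((finRotate (m + 2))⁻¹ : Perm (Fin (m + 2))) x ≠ x := by
    intro x hx
    have h2 : (finRotate (m + 2)) x = x := by
      rw [Equiv.Perm.inv_eq_iff_eq] at hx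
      exact hx.symm
    have h4 := support_finRotate (n := m)
    have h5 : x ∈ (finRotate (m + 2)).support := by rw [h4]; exact mem_univ x
    rw [Perm.mem_support] at h5
    exact h5 h2
  obtain ⟨k, hk⟩ := hcyc.exists_pow_eq (hsup z) (hsup y)
  exact h1 k (by rw [hk]; exact hy)

/-- cross agreement bound for the rotation -/
theorem cross_rotate {n t : ℕ} (ht : 2 ≤ t) (htn : t ≤ n) (hn : n ≤ 2 * t - 1)
    (σ τ : Perm (Fin n)) (h : t ≤ agr σ τ) : agr σ (finRotate n * τ) + 2 ≤ t := by
  classical
  obtain ⟨m, rfl⟩ : ∃ m, n = m + 2 := ⟨n - 2, by omega⟩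
  set c := finRotate (m + 2) with hc
  have hfix : ∀ x, c x ≠ x := by
    intro x
    have h5 : x ∈ (finRotate (m + 2)).support := by
      rw [support_finRotate (n := m)]
      exact mem_univ x
    rwa [Perm.mem_support] at h5
  set Y : Finset (Fin (m + 2)) := (univ.filter fun i => σ i = τ i).image σ with hY
  have hYcard : Y.card = agr σ τ := by
    rw [hY, card_image_of_injective _ σ.injective]
    rfl
  -- the agreements of σ and cτ
  have hsub : ((univ.filter fun i => σ i = (c * τ) i).image σ) ⊆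
      univ.filter fun y => y ∉ Y ∧ c.symm y ∉ Y := by
    intro y hy
    rw [mem_image] at hy
    obtain ⟨x, hx, rfl⟩ := hy
    have hx' : σ x = c (τ x) := by simpa using hx
    have hne : σ x ≠ τ x := by
      rw [hx']
      exact hfix _
    simp only [mem_filter, mem_univ, true_and]
    constructor
    · intro hmem
      rw [hY, mem_image] at hmem
      obtain ⟨x', hx'', he⟩ := hmem
      have : x' = x := σ.injective he
      subst this
      exact hne (by simpa using hx'')
    · intro hmem
      rw [hx', Equiv.symm_apply_apply, hY, mem_image] at hmem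
      obtain ⟨x', hx'', he⟩ := hmem
      have h1 : σ x' = τ x' := by simpa using hx''
      rw [h1] at he
      have : x' = x := τ.injective he
      subst this
      exact hne h1
  have hcard1 : agr σ (c * τ) ≤ (univ.filter fun y => y ∉ Y ∧ c.symm y ∉ Y).card := by
    have := card_le_card hsub
    rwa [card_image_of_injective _ σ.injective] at this
  have hYc : (univ.filter fun y => y ∉ Y).card = m + 2 - agr σ τ := by
    have h1 : (univ.filter fun y => y ∉ Y) = Yᶜ := by
      ext y
      simp
    rw [h1, card_compl, Fintype.card_fin, hYcard]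
  by_cases hall : ∀ y, y ∉ Y → c.symm y ∉ Y
  · have hYu := rotate_invariant (m := m) Y hall (by
      rw [← card_pos, hYcard]
      omega)
    have h0 : (univ.filter fun y => y ∉ Y ∧ c.symm y ∉ Y).card = 0 := by
      rw [card_eq_zero, filter_eq_empty_iff]
      intro y _ hy
      exact hy.1 (by rw [hYu]; exact mem_univ _)
    omega
  · push Not at hall
    obtain ⟨y0, hy0, hy0'⟩ := hall
    have hlt : (univ.filter fun y => y ∉ Y ∧ c.symm y ∉ Y).card <
        (univ.filter fun y => y ∉ Y).card := by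
      apply card_lt_card
      rw [ssubset_iff_of_subset]
      · exact ⟨y0, by simp [hy0], by simp [hy0']⟩
      · intro y hy
        simp only [mem_filter, mem_univ, true_and] at hy ⊢
        exact hy.1
    omega

theorem double_small {n t : ℕ} (ht : 2 ≤ t) (htn : t ≤ n) (hn : n ≤ 2 * t - 1)
    (F : Finset (Perm (Fin n))) (hF : IsIntersecting t F) :
    ∃ G : Finset (Perm (Fin n)), IsAvoiding t G ∧ 2 * F.card ≤ G.card :=
  doubling (by omega) htn hF (finRotate n) fun σ hσ τ hτ => cross_rotate ht htn hn σ τ (hF σ hσ τ hτ)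

end Pool.Agent.H17.PermInt
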