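import Mathlib
import Pool.Agent.H17.PermInt.Basic

/-!
Graphs of permutations, counting permutations containing a given partial permutation.
-/

namespace Pool.Agent.H17.PermInt

open Finset Equiv Nat

variable {n : ℕ}

/-- graph of a permutation -/
def gr (σ : Perm (Fin n)) : Finset (Fin n × Fin n) := univ.filter fun x => σ x.1 = x.2

theorem mem_gr {σ : Perm (Fin n)} {x : Fin n × Fin n} : x ∈ gr σ ↔ σ x.1 = x.2 := by
  simp [gr]

theorem gr_eq_image (σ : Perm (Fin n)) : gr σ = univ.image fun i => (i, σ i) := by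
  ext ⟨a, b⟩
  simp [mem_gr]

theorem card_gr (σ : Perm (Fin n)) : (gr σ).card = n := by
  rw [gr_eq_image, Finset.card_image_of_injective]
  · simp
  · intro a b h
    exact (Prod.mk.inj h).1

theorem card_gr_inter (σ τ : Perm (Fin n)) : (gr σ ∩ gr τ).card = agr σ τ := by
  have : gr σ ∩ gr τ = (univ.filter fun i => σ i = τ i).image fun i => (i, σ i) := by
    ext ⟨a, b⟩
    simp only [mem_inter, mem_gr, mem_image, mem_filter, mem_univ, true_and, Prod.mk.injEq]
    constructor
    · rintro ⟨h1, h2⟩
      exact ⟨a, h1.trans h2.symm, rfl, h1⟩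
    · rintro ⟨a', h, rfl, rfl⟩
      exact ⟨rfl, h.symm⟩
  rw [this, Finset.card_image_of_injective]
  · rfl
  · intro a b h
    exact (Prod.mk.inj h).1

theorem card_fix (S : Finset (Fin n)) :
    (univ.filter fun g : Perm (Fin n) => ∀ a ∈ S, g a = a).card = (n - S.card)! := by
  classical
  have e := Equiv.Perm.subtypeEquivSubtypePerm (fun a : Fin n => a ∉ S)
  have h1 : Fintype.card (Perm {a : Fin n // a ∉ S}) = (n - S.card)! := by
    rw [Fintype.card_perm]
    congr 1
    rw [Fintype.card_subtype]
    have : (univ.filter fun y => y ∉ S) = Sᶜ := by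
      ext y
      simp
    rw [this, card_compl, Fintype.card_fin]
  rw [← h1, Fintype.card_congr e, Fintype.card_subtype]
  congr 1
  ext g
  simp

theorem fst_injOn_gr (σ : Perm (Fin n)) : Set.InjOn Prod.fst (gr σ : Set (Fin n × Fin n)) := by
  rintro ⟨a, b⟩ h ⟨a', b'⟩ h' he
  simp only [mem_coe, mem_gr] at h h' he
  subst he
  rw [← h, ← h']

theorem snd_injOn_gr (σ : Perm (Fin n)) : Set.InjOn Prod.snd (gr σ : Set (Fin n × Fin n)) := by
  rintro ⟨a, b⟩ h ⟨a', b'⟩ h' he
  simp only [mem_coe, mem_gr] at h h' he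
  subst he
  rw [← h] at h'
  rw [σ.injective h']

/-- number of permutations containing a given set of pairs -/
theorem card_contain_le (V : Finset (Fin n × Fin n)) :
    (univ.filter fun ρ : Perm (Fin n) => V ⊆ gr ρ).card ≤ (n - V.card)! := by
  classical
  rcases (univ.filter fun ρ : Perm (Fin n) => V ⊆ gr ρ).eq_empty_or_nonempty with h | ⟨ρ₀, h0⟩
  · rw [h, card_empty]
    exact Nat.zero_le _
  · have h0' : V ⊆ gr ρ₀ := (mem_filter.mp h0).2
    have hc : (V.image Prod.fst).card = V.card :=
      card_image_of_injOn ((fst_injOn_gr ρ₀).mono (by exact_mod_cast h0'))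
    rw [← hc, ← card_fix]
    apply card_le_card_of_injOn (fun ρ => ρ₀⁻¹ * ρ)
    · intro ρ hρ
      simp only [coe_filter, mem_univ, true_and, Set.mem_ofPred_eq] at hρ ⊢
      intro a ha
      rw [mem_image] at ha
      obtain ⟨x, hx, rfl⟩ := ha
      have h1 := mem_gr.mp (hρ hx)
      have h2 := mem_gr.mp (h0' hx)
      rw [Perm.mul_apply, h1, ← h2]
      simp
    · intro a _ b _ hab
      exact mul_left_cancel hab

/-- the star -/
theorem star_exists {t : ℕ} (htn : t ≤ n) :
    ∃ F : Finset (Perm (Fin n)), IsIntersecting t F ∧ F.card = (n - t)! := by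
  classical
  refine ⟨univ.filter fun g : Perm (Fin n) => ∀ a ∈ (univ.filter fun i : Fin n => i.val < t),
    g a = a, ?_, ?_⟩
  · intro σ hσ τ hτ
    have hc : (univ.filter fun i : Fin n => i.val < t).card = t := by
      rw [Fin.card_filter_val_lt]
      omega
    calc t = (univ.filter fun i : Fin n => i.val < t).card := hc.symm
      _ ≤ agr σ τ := by
        apply card_le_card
        intro i hi
        have h1 := (mem_filter.mp hσ).2 i hi
        have h2 := (mem_filter.mp hτ).2 i hi
        simp [h1, h2]
  · rw [card_fix, Fin.card_filter_val_lt]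
    congr 2
    omega

/-- if all members of `F` meet `W` in at least `s` pairs -/
theorem card_le_of_meet (F : Finset (Perm (Fin n))) (W : Finset (Fin n × Fin n)) (s : ℕ)
    (h : ∀ ρ ∈ F, s ≤ (gr ρ ∩ W).card) : F.card ≤ 2 ^ W.card * (n - s)! := by
  classical
  have hsub : F ⊆ (W.powersetCard s).biUnion
      fun V => univ.filter fun ρ : Perm (Fin n) => V ⊆ gr ρ := by
    intro ρ hρ
    obtain ⟨V, hV, hVc⟩ := exists_subset_card_eq (h ρ hρ)
    rw [mem_biUnion]
    refine ⟨V, ?_, ?_⟩
    · rw [mem_powersetCard]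
      exact ⟨hV.trans inter_subset_right, hVc⟩
    · simp only [mem_filter, mem_univ, true_and]
      exact hV.trans inter_subset_left
  calc F.card ≤ _ := card_le_card hsub
    _ ≤ (W.powersetCard s).card * (n - s)! := by
        apply card_biUnion_le_card_mul
        intro V hV
        rw [mem_powersetCard] at hV
        rw [← hV.2]
        exact card_contain_le V
    _ ≤ 2 ^ W.card * (n - s)! := by
        apply Nat.mul_le_mul_right
        rw [card_powersetCard]
        exact Nat.choose_le_two_pow _ _

end Pool.Agent.H17.PermInt
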