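import Mathlib
import Pool.Agent.H17.PermInt.Count

/-!
Stars are never exactly the largest `(t-1)`-intersection-free families when `n ≤ 3t-1`.
-/

namespace Pool.Agent.H17.PermInt

open Finset Equiv Nat

variable {n : ℕ}

/-- swaps `i` and `i + t` for `i < t` -/
def shiftFun (t n : ℕ) (h : 2 * t ≤ n) (i : Fin n) : Fin n :=
  if h1 : i.val < t then ⟨i.val + t, by omega⟩
  else if h2 : i.val < 2 * t then ⟨i.val - t, by omega⟩ else i

theorem shiftFun_invol (t n : ℕ) (h : 2 * t ≤ n) : Function.Involutive (shiftFun t n h) := by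
  intro i
  apply Fin.ext
  unfold shiftFun
  by_cases h1 : i.val < t
  · have h3 : ¬ (i.val + t < t) := by omega
    have h4 : i.val + t < 2 * t := by omega
    simp [h1, h3, h4]
  · by_cases h2 : i.val < 2 * t
    · have h3 : i.val - t < t := by omega
      simp [h1, h2, h3]
      omega
    · simp [h1, h2]

/-- the permutation swapping `i` and `i + t` for `i < t` -/
def shiftPerm (t n : ℕ) (h : 2 * t ≤ n) : Perm (Fin n) := (shiftFun_invol t n h).toPerm

theorem shiftPerm_lt {t n : ℕ} (h : 2 * t ≤ n) {i : Fin n} (hi : i.val < t) :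
    (shiftPerm t n h i).val = i.val + t := by
  simp [shiftPerm, shiftFun, hi]

theorem shiftPerm_mid {t n : ℕ} (h : 2 * t ≤ n) {i : Fin n} (hi : ¬ i.val < t)
    (hi' : i.val < 2 * t) : (shiftPerm t n h i).val = i.val - t := by
  simp [shiftPerm, shiftFun, hi, hi']

theorem shiftPerm_ge {t n : ℕ} (h : 2 * t ≤ n) {i : Fin n} (hi : 2 * t ≤ i.val) :
    shiftPerm t n h i = i := by
  have h1 : ¬ i.val < t := by omega
  have h2 : ¬ i.val < 2 * t := by omega
  simp [shiftPerm, shiftFun, h1, h2]

/-- agreement values of `σ` and `πτ` -/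
theorem cross_star_sub {t : ℕ} (h : 2 * t ≤ n) (σ τ : Perm (Fin n))
    (hσ : ∀ i : Fin n, i.val < t → σ i = i) (hτ : ∀ i : Fin n, i.val < t → τ i = i) :
    ((univ.filter fun i => σ i = (shiftPerm t n h * τ) i).image σ) ⊆
      univ.filter fun v : Fin n => 2 * t ≤ v.val := by
  intro v hv
  rw [mem_image] at hv
  obtain ⟨i, hi, rfl⟩ := hv
  have hi' : σ i = shiftPerm t n h (τ i) := by simpa using hi
  simp only [mem_filter, mem_univ, true_and]
  by_contra hlt
  push Not at hlt
  by_cases h1 : (σ i).val < t
  · have h2 : σ (σ i) = σ i := hσ _ h1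
    have h3 : σ i = i := σ.injective h2
    rw [h3] at h1
    have h4 := hτ i h1
    rw [h4, h3] at hi'
    have h5 := shiftPerm_lt h h1
    rw [← hi'] at h5
    omega
  · have h2 : shiftPerm t n h (σ i) = τ i := by
      rw [hi']
      exact shiftFun_invol t n h (τ i)
    have h3 : (τ i).val = (σ i).val - t := by
      rw [← h2]
      exact shiftPerm_mid h h1 hlt
    have h4 : (τ i).val < t := by omega
    have h5 : τ (τ i) = τ i := hτ _ h4
    have h6 : τ i = i := τ.injective h5
    rw [h6] at h4
    have h7 := hσ i h4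
    rw [h7] at h1
    omega

theorem card_ge {t : ℕ} (h : 2 * t ≤ n) :
    (univ.filter fun v : Fin n => 2 * t ≤ v.val).card = n - 2 * t := by
  have h1 : (univ.filter fun v : Fin n => 2 * t ≤ v.val) =
      (univ.filter fun v : Fin n => v.val < 2 * t)ᶜ := by
    ext v
    simp
  rw [h1, card_compl, Fintype.card_fin, Fin.card_filter_val_lt]
  omega

/-- Union of `F₁` and `πF₂`. -/
theorem union_family {t : ℕ} (ht : 1 ≤ t) (htn : t ≤ n) {F₁ F₂ : Finset (Perm (Fin n))}
    (h₁ : IsIntersecting t F₁) (h₂ : IsIntersecting t F₂) (π : Perm (Fin n))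
    (hcross : ∀ σ ∈ F₁, ∀ τ ∈ F₂, agr σ (π * τ) + 2 ≤ t) (hne₁ : F₁.Nonempty)
    (hne₂ : F₂.Nonempty) :
    ∃ G : Finset (Perm (Fin n)), IsAvoiding t G ∧ ¬ IsIntersecting t G ∧
      G.card = F₁.card + F₂.card := by
  classical
  refine ⟨F₁ ∪ F₂.image (π * ·), ?_, ?_, ?_⟩
  · intro σ hσ τ hτ _ h1
    rw [mem_union] at hσ hτ
    rcases hσ with hσ | hσ <;> rcases hτ with hτ | hτ
    · have := h₁ σ hσ τ hτ
      omega
    · rw [Finset.mem_image] at hτ
      obtain ⟨τ', hτ', rfl⟩ := hτ
      have := hcross σ hσ τ' hτ'
      omega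
    · rw [Finset.mem_image] at hσ
      obtain ⟨σ', hσ', rfl⟩ := hσ
      have := hcross τ hτ σ' hσ'
      rw [agr_comm] at this
      omega
    · rw [Finset.mem_image] at hσ hτ
      obtain ⟨σ', hσ', rfl⟩ := hσ
      obtain ⟨τ', hτ', rfl⟩ := hτ
      rw [agr_mul_left] at h1
      have := h₂ σ' hσ' τ' hτ'
      omega
  · intro hI
    obtain ⟨σ, hσ⟩ := hne₁
    obtain ⟨τ, hτ⟩ := hne₂
    have h1 := hI σ (mem_union_left _ hσ) (π * τ)
      (mem_union_right _ (Finset.mem_image_of_mem _ hτ))
    have h2 := hcross σ hσ τ hτ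
    omega
  · rw [card_union_of_disjoint, Finset.card_image_of_injective _ (mul_right_injective π)]
    rw [disjoint_left]
    intro σ hσ hσ'
    rw [Finset.mem_image] at hσ'
    obtain ⟨τ, hτ, h⟩ := hσ'
    have := hcross σ hσ τ hτ
    rw [h, agr_self] at this
    omega

/-- the standard star -/
def star (n t : ℕ) : Finset (Perm (Fin n)) :=
  univ.filter fun g => ∀ i : Fin n, i.val < t → g i = i

theorem mem_star {t : ℕ} {g : Perm (Fin n)} :
    g ∈ star n t ↔ ∀ i : Fin n, i.val < t → g i = i := by
  simp [star]

theorem star_card {t : ℕ} (htn : t ≤ n) : (star n t).card = (n - t)! := by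
  have h1 : star n t = univ.filter fun g : Perm (Fin n) =>
      ∀ a ∈ (univ.filter fun i : Fin n => i.val < t), g a = a := by
    ext g
    simp [star]
  rw [h1, card_fix, Fin.card_filter_val_lt]
  congr 2
  omega

theorem star_intersecting {t : ℕ} (htn : t ≤ n) : IsIntersecting t (star n t) := by
  intro σ hσ τ hτ
  have hc : (univ.filter fun i : Fin n => i.val < t).card = t := by
    rw [Fin.card_filter_val_lt]
    omega
  calc t = (univ.filter fun i : Fin n => i.val < t).card := hc.symm
    _ ≤ agr σ τ := by
      apply card_le_card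
      intro i hi
      have hi' : i.val < t := (mem_filter.mp hi).2
      have h1 := mem_star.mp hσ i hi'
      have h2 := mem_star.mp hτ i hi'
      simp [h1, h2]

theorem star_nonempty {t : ℕ} : (star n t).Nonempty := ⟨1, by simp [mem_star]⟩

theorem cross_star {t : ℕ} (h : 2 * t ≤ n) (σ τ : Perm (Fin n))
    (hσ : σ ∈ star n t) (hτ : τ ∈ star n t) : agr σ (shiftPerm t n h * τ) ≤ n - 2 * t := by
  have h1 := card_le_card (cross_star_sub h σ τ (mem_star.mp hσ) (mem_star.mp hτ))
  rwa [card_ge h, Finset.card_image_of_injective _ σ.injective] at h1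

theorem star_family {t : ℕ} (ht : 2 ≤ t) (htn : t ≤ n) (hn : n ≤ 3 * t - 1) :
    ∃ G : Finset (Perm (Fin n)), IsAvoiding t G ∧ ¬ IsIntersecting t G ∧ (n - t)! ≤ G.card ∧
      (n ≤ 3 * t - 2 → 2 * (n - t)! ≤ G.card) := by
  classical
  by_cases hsmall : n ≤ 2 * t - 1
  · obtain ⟨G, hG, hG', hGc⟩ := union_family (by omega) htn (star_intersecting htn)
      (star_intersecting htn) (finRotate n)
      (fun σ hσ τ hτ => cross_rotate ht htn hsmall σ τ (star_intersecting htn σ hσ τ hτ))
      star_nonempty star_nonempty
    rw [star_card htn] at hGc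
    exact ⟨G, hG, hG', by omega, fun _ => by omega⟩
  · have h2 : 2 * t ≤ n := by omega
    by_cases hmid : n ≤ 3 * t - 2
    · obtain ⟨G, hG, hG', hGc⟩ := union_family (by omega) htn (star_intersecting htn)
        (star_intersecting htn) (shiftPerm t n h2)
        (fun σ hσ τ hτ => by
          have := cross_star h2 σ τ hσ hτ
          omega)
        star_nonempty star_nonempty
      rw [star_card htn] at hGc
      exact ⟨G, hG, hG', by omega, fun _ => by omega⟩
    · -- `n = 3t - 1`
      set p : Fin n := ⟨n - 1, by omega⟩ with hp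
      set F₁ := (star n t).filter fun σ => σ p = p with hF₁
      set F₂ := (star n t).filter fun σ => ¬ σ p = p with hF₂
      have hsum : F₁.card + F₂.card = (n - t)! := by
        rw [← star_card htn]
        exact card_filter_add_card_filter_not _
      have h1s : F₁ ⊆ star n t := filter_subset _ _
      have h2s : F₂ ⊆ star n t := filter_subset _ _
      have hne₁ : F₁.Nonempty := ⟨1, by simp [hF₁, mem_star]⟩
      have hne₂ : F₂.Nonempty := by
        have hlt : n - 2 < n := by omega
        set p' : Fin n := ⟨n - 2, hlt⟩ with hp'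
        refine ⟨Equiv.swap p' p, ?_⟩
        have hne : p' ≠ p := by
          intro h
          have := congrArg Fin.val h
          simp only [hp, hp'] at this
          omega
        rw [hF₂, mem_filter, mem_star]
        refine ⟨fun i hi => ?_, ?_⟩
        · apply Equiv.swap_apply_of_ne_of_ne
          · intro h
            rw [h] at hi
            simp only [hp'] at hi
            omega
          · intro h
            rw [h] at hi
            simp only [hp] at hi
            omega
        · rw [Equiv.swap_apply_right]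
          exact hne
      obtain ⟨G, hG, hG', hGc⟩ := union_family (F₁ := F₁) (F₂ := F₂) (t := t) (by omega) htn
        (fun σ hσ τ hτ => star_intersecting htn σ (h1s hσ) τ (h1s hτ))
        (fun σ hσ τ hτ => star_intersecting htn σ (h2s hσ) τ (h2s hτ))
        (shiftPerm t n h2)
        (fun σ hσ τ hτ => by
          have h1 := cross_star_sub h2 σ τ (mem_star.mp (h1s hσ)) (mem_star.mp (h2s hτ))
          have hpσ : σ p = p := (mem_filter.mp hσ).2
          have hpτ : ¬ τ p = p := (mem_filter.mp hτ).2
          have hss : ((univ.filter fun i => σ i = (shiftPerm t n h2 * τ) i).image σ) ⊂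
              univ.filter fun v : Fin n => 2 * t ≤ v.val := by
            rw [ssubset_iff_of_subset h1]
            refine ⟨p, by simp [hp]; omega, ?_⟩
            intro hmem
            rw [Finset.mem_image] at hmem
            obtain ⟨i, hi, he⟩ := hmem
            have hi' : σ i = shiftPerm t n h2 (τ i) := by simpa using hi
            have h3 : i = p := σ.injective (he.trans hpσ.symm)
            rw [h3, hpσ] at hi'
            have h4 : shiftPerm t n h2 p = p := shiftPerm_ge h2 (by simp only [hp]; omega)
            have h5 : τ p = p := by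
              apply (shiftPerm t n h2).injective
              rw [← hi', h4]
            exact hpτ h5
          have h6 := card_lt_card hss
          rw [card_ge h2, Finset.card_image_of_injective _ σ.injective] at h6
          have h7 : agr σ (shiftPerm t n h2 * τ) < n - 2 * t := h6
          omega)
        hne₁ hne₂
      exact ⟨G, hG, hG', by omega, fun h => by omega⟩

/-- consequence for coincidence -/
theorem not_coincide_of_star {t : ℕ} (ht : 2 ≤ t) (htn : t ≤ n) (hn : n ≤ 3 * t - 1)
    (hmax : ∀ F : Finset (Perm (Fin n)), IsIntersecting t F → F.card ≤ (n - t)!) :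
    ¬ Coincide n t := by
  intro hc
  obtain ⟨G, hG, hG', hGc, _⟩ := star_family ht htn hn
  have hstar : IsLargest (IsIntersecting t) (star n t) :=
    ⟨star_intersecting htn, fun F hF => by rw [star_card htn]; exact hmax F hF⟩
  have h1 := (hc _).mpr hstar
  have hGl : IsLargest (IsAvoiding t) G := by
    refine ⟨hG, fun H hH => ?_⟩
    have h2 := h1.2 H hH
    rw [star_card htn] at h2
    omega
  exact hG' ((hc G).mp hGl).1

end Pool.Agent.H17.PermInt
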