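import Mathlib
import Pool.Agent.H17.PermInt.Count

/-!
The core of a large `t`-intersecting family, and doubling.
-/

namespace Pool.Agent.H17.PermInt

open Finset Equiv Nat

variable {n : ℕ}

/-- common part of the graphs -/
def cap (T : Finset (Perm (Fin n))) : Finset (Fin n × Fin n) :=
  univ.filter fun x => ∀ σ ∈ T, σ x.1 = x.2

/-- union of the graphs -/
def cup (T : Finset (Perm (Fin n))) : Finset (Fin n × Fin n) := T.biUnion gr

theorem card_cup_le (T : Finset (Perm (Fin n))) : (cup T).card ≤ T.card * n := by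
  unfold cup
  apply card_biUnion_le_card_mul
  intro σ _
  rw [card_gr]

theorem cap_subset_gr {T : Finset (Perm (Fin n))} {σ : Perm (Fin n)} (h : σ ∈ T) :
    cap T ⊆ gr σ := by
  intro x hx
  rw [mem_gr]
  exact (mem_filter.mp hx).2 σ h

theorem greedy (F : Finset (Perm (Fin n))) (hF : F.Nonempty) (d k : ℕ) :
    (∃ T ⊆ F, T.Nonempty ∧ T.card ≤ k + 1 ∧ (cap T).card + k * d ≤ n) ∨
    (∃ T ⊆ F, T.Nonempty ∧ T.card ≤ k ∧ ∀ ρ ∈ F, (cap T \ gr ρ).card < d) := by
  classical
  induction k with
  | zero =>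
    left
    obtain ⟨σ, hσ⟩ := hF
    refine ⟨{σ}, by simpa using hσ, by simp, by simp, ?_⟩
    have := card_le_card (cap_subset_gr (mem_singleton_self σ))
    rw [card_gr] at this
    omega
  | succ k ih =>
    rcases ih with ⟨T, hT, hne, hc, hcap⟩ | ⟨T, hT, hne, hc, h⟩
    · by_cases h : ∀ ρ ∈ F, (cap T \ gr ρ).card < d
      · right
        exact ⟨T, hT, hne, hc, h⟩
      · left
        push Not at h
        obtain ⟨ρ, hρ, hd⟩ := h
        refine ⟨insert ρ T, insert_subset hρ hT, insert_nonempty _ _,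
          (card_insert_le _ _).trans (by omega), ?_⟩
        have h1 : cap (insert ρ T) ⊆ cap T ∩ gr ρ := by
          intro x hx
          have hx' := (mem_filter.mp hx).2
          rw [mem_inter]
          refine ⟨?_, mem_gr.mpr (hx' ρ (mem_insert_self _ _))⟩
          simp only [cap, mem_filter, mem_univ, true_and]
          intro σ hσ
          exact hx' σ (mem_insert_of_mem hσ)
        have h2 := card_le_card h1
        have h3 := card_inter_add_card_sdiff (cap T) (gr ρ)
        have h4 : (k + 1) * d = k * d + d := by ring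
        omega
    · right
      exact ⟨T, hT, hne, by omega, h⟩

/-- if `cap T` is small, all `ρ` meet `cup T` a lot. -/
theorem meet_cup {t d w : ℕ} (F T : Finset (Perm (Fin n))) (hF : IsIntersecting t F)
    (hT : T ⊆ F) (hne : T.Nonempty) (hcap : (cap T).card + d < t)
    (hw : T.card * w ≤ d) : ∀ ρ ∈ F, t + w ≤ (gr ρ ∩ cup T).card := by
  classical
  intro ρ hρ
  set U := gr ρ ∩ cup T with hU
  have hX : ∀ σ ∈ T, t ≤ (gr ρ ∩ gr σ).card := by
    intro σ hσ
    rw [card_gr_inter]
    exact hF ρ hρ σ (hT hσ)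
  have hXU : ∀ σ ∈ T, gr ρ ∩ gr σ ⊆ U := by
    intro σ hσ
    apply inter_subset_inter_left
    exact subset_biUnion_of_mem gr hσ
  have hsub : U \ cap T ⊆ T.biUnion fun σ => U \ (gr ρ ∩ gr σ) := by
    intro x hx
    rw [mem_sdiff] at hx
    obtain ⟨hxU, hxc⟩ := hx
    simp only [cap, mem_filter, mem_univ, true_and, not_forall] at hxc
    obtain ⟨σ, hσ, hne⟩ := hxc
    rw [mem_biUnion]
    refine ⟨σ, hσ, ?_⟩
    rw [mem_sdiff]
    refine ⟨hxU, fun h => hne ?_⟩
    exact mem_gr.mp (mem_inter.mp h).2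
  have hUt : t ≤ U.card := by
    obtain ⟨σ, hσ⟩ := hne
    exact (hX σ hσ).trans (card_le_card (hXU σ hσ))
  have h1 : (U \ cap T).card ≤ T.card * (U.card - t) := by
    refine (card_le_card hsub).trans (card_biUnion_le_card_mul _ _ _ ?_)
    intro σ hσ
    rw [card_sdiff_of_subset (hXU σ hσ)]
    have := hX σ hσ
    omega
  have h2 : U.card ≤ (U \ cap T).card + (cap T).card := by
    have h3 := card_inter_add_card_sdiff U (cap T)
    have h4 := card_le_card (inter_subset_right (s₁ := U) (s₂ := cap T))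
    omega
  by_contra hlt
  push Not at hlt
  have h5 : T.card * (U.card - t) ≤ T.card * w := Nat.mul_le_mul_left _ (by omega)
  omega

/-- a permutation moving `V` off itself -/
theorem exists_perm_disjoint (V : Finset (Fin n)) (hV : 2 * V.card ≤ n) :
    ∃ π : Perm (Fin n), ∀ v ∈ V, π v ∉ V := by
  classical
  obtain ⟨V', hV', hc⟩ := exists_subset_card_eq (s := Vᶜ) (n := V.card) (by
    rw [card_compl, Fintype.card_fin]
    omega)
  have e : {x // x ∈ V} ≃ {x // x ∈ V'} := Fintype.equivOfCardEq (by simp [hc])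
  refine ⟨e.extendSubtype, ?_⟩
  intro v hv hmem
  have h1 := Equiv.extendSubtype_mem e v hv
  have h2 := hV' h1
  rw [mem_compl] at h2
  exact h2 hmem

/-- cross agreement -/
theorem cross_core {t d : ℕ} (F : Finset (Perm (Fin n)))
    (I : Finset (Fin n × Fin n))
    (hmiss : ∀ ρ ∈ F, (I \ gr ρ).card < d) (π : Perm (Fin n))
    (hπ : ∀ v ∈ I.image Prod.snd, π v ∉ I.image Prod.snd)
    (hn : n + 4 * d ≤ t + 2 * I.card + 2) :
    ∀ σ ∈ F, ∀ τ ∈ F, agr σ (π * τ) + 2 ≤ t := by
  classical
  intro σ hσ τ hτ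
  -- the common pairs
  set A := I ∩ gr σ ∩ gr τ with hA
  have hAI : A ⊆ I := inter_subset_left.trans inter_subset_left
  have hAσ : A ⊆ gr σ := inter_subset_left.trans inter_subset_right
  have hAτ : A ⊆ gr τ := inter_subset_right
  have hAc : I.card + 2 ≤ A.card + 2 * d := by
    have h1 : I \ A ⊆ (I \ gr σ) ∪ (I \ gr τ) := by
      intro x hx
      rw [mem_sdiff] at hx
      rw [mem_union, mem_sdiff, mem_sdiff]
      by_contra hcon
      push Not at hcon
      apply hx.2
      rw [hA, mem_inter, mem_inter]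
      exact ⟨⟨hx.1, hcon.1 hx.1⟩, hcon.2 hx.1⟩
    have h2 := card_le_card h1
    have h3 := card_union_le (I \ gr σ) (I \ gr τ)
    have h4 := hmiss σ hσ
    have h5 := hmiss τ hτ
    have h6 := card_sdiff_add_card_eq_card hAI
    omega
  -- the excluded positions
  set P := A.image Prod.fst with hP
  set Q := A.image (fun x => σ.symm (π x.2)) with hQ
  have hPc : P.card = A.card :=
    card_image_of_injOn ((fst_injOn_gr σ).mono (by exact_mod_cast hAσ))
  have hQc : Q.card = A.card := by
    apply Finset.card_image_of_injOn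
    intro x hx y hy hxy
    apply snd_injOn_gr σ (hAσ hx) (hAσ hy)
    exact π.injective (σ.symm.injective hxy)
  have hPQ : Disjoint P Q := by
    rw [disjoint_left]
    intro i hi hi'
    rw [hP, mem_image] at hi
    rw [hQ, mem_image] at hi'
    obtain ⟨x, hx, rfl⟩ := hi
    obtain ⟨y, hy, he⟩ := hi'
    have h1 : π y.2 = σ x.1 := by
      rw [← he]
      simp
    rw [mem_gr.mp (hAσ hx)] at h1
    exact hπ y.2 (mem_image_of_mem _ (hAI hy)) (by rw [h1]; exact mem_image_of_mem _ (hAI hx))
  have hsub : (univ.filter fun i => σ i = (π * τ) i) ⊆ (P ∪ Q)ᶜ := by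
    intro i hi
    have hi' : σ i = π (τ i) := by simpa using hi
    rw [mem_compl, mem_union]
    rintro (h | h)
    · rw [hP, mem_image] at h
      obtain ⟨x, hx, rfl⟩ := h
      rw [mem_gr.mp (hAσ hx), mem_gr.mp (hAτ hx)] at hi'
      exact hπ x.2 (mem_image_of_mem _ (hAI hx)) (by rw [← hi']; exact mem_image_of_mem _ (hAI hx))
    · rw [hQ, mem_image] at h
      obtain ⟨x, hx, he⟩ := h
      have h1 : π x.2 = σ i := by
        rw [← he]
        simp
      rw [h1.symm] at hi'
      have h2 : τ i = x.2 := (π.injective hi').symm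
      have h3 : τ x.1 = x.2 := mem_gr.mp (hAτ hx)
      have h4 : i = x.1 := τ.injective (h2.trans h3.symm)
      have h5 : σ x.1 = x.2 := mem_gr.mp (hAσ hx)
      rw [h4, h5] at h1
      exact hπ x.2 (mem_image_of_mem _ (hAI hx)) (by rw [h1]; exact mem_image_of_mem _ (hAI hx))
  have hcard := card_le_card hsub
  rw [card_compl, Fintype.card_fin, card_union_of_disjoint hPQ, hPc, hQc] at hcard
  have hag : agr σ (π * τ) ≤ n - (A.card + A.card) := hcard
  have hAn : A.card + A.card ≤ n := by
    have : (P ∪ Q).card ≤ n := by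
      have := card_le_univ (P ∪ Q)
      rwa [Fintype.card_fin] at this
    rw [card_union_of_disjoint hPQ] at this
    omega
  omega

/-- `2t ≤ n`, `n` a bit below `3t`: combinatorial statement -/
theorem double_comb {t d w r : ℕ} (ht : 1 ≤ t) (h2 : 2 * t ≤ n)
    (hr : n < r * d) (hrw : r * w ≤ d) (hnt : n + 6 * d ≤ 3 * t + 2) (hdt : d ≤ t)
    (hnum : 2 ^ (r * n) * (n - t - w)! < (n - t)!)
    (F : Finset (Perm (Fin n))) (hF : IsIntersecting t F) (hFc : (n - t)! ≤ F.card) :
    ∃ G : Finset (Perm (Fin n)), IsAvoiding t G ∧ 2 * F.card ≤ G.card := by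
  classical
  have hFne : F.Nonempty := by
    rw [← card_pos]
    exact lt_of_lt_of_le (Nat.factorial_pos _) hFc
  rcases greedy F hFne d r with ⟨T, _, _, _, hbad⟩ | ⟨T, hT, hne, hTr, hmiss⟩
  · omega
  -- the core is large
  have hcore : t ≤ (cap T).card + d := by
    by_contra hlt
    push Not at hlt
    have hTw : T.card * w ≤ d := (Nat.mul_le_mul_right w hTr).trans hrw
    have hmeet := meet_cup F T hF hT hne hlt hTw
    have h1 := card_le_of_meet F (cup T) (t + w) hmeet
    have h2 : 2 ^ (cup T).card ≤ 2 ^ (r * n) :=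
      Nat.pow_le_pow_right (by norm_num)
        ((card_cup_le T).trans (Nat.mul_le_mul_right n hTr))
    have h3 : n - (t + w) = n - t - w := by omega
    rw [h3] at h1
    have h4 := Nat.mul_le_mul_right ((n - t - w)!) h2
    omega
  obtain ⟨I, hI, hIc⟩ := exists_subset_card_eq (s := cap T) (n := t - d) (by omega)
  have hVc : (I.image Prod.snd).card ≤ t - d := by
    rw [← hIc]
    exact card_image_le
  obtain ⟨π, hπ⟩ := exists_perm_disjoint (I.image Prod.snd) (by omega)
  apply doubling ht (by omega) hF π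
  apply cross_core (d := d) F I _ π hπ
  · rw [hIc]
    omega
  · intro ρ hρ
    refine lt_of_le_of_lt (card_le_card ?_) (hmiss ρ hρ)
    exact sdiff_subset_sdiff hI (Subset.refl _)

end Pool.Agent.H17.PermInt
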