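import Mathlib
import Pool.Agent.H17.PermInt.Core

/-!
`n ≤ (3-ε)t`.
-/

namespace Pool.Agent.H17.PermInt

open Finset Equiv Nat

theorem numeric (q t n : ℕ) (hq : 1 ≤ q) (ht : 2 ^ (216 * q ^ 3 + 2) ≤ t) (h2 : 2 * t ≤ n)
    (h3 : n ≤ 3 * t) :
    n < 6 * q * (t / q) ∧ 6 * q * (t / q / (6 * q)) ≤ t / q ∧
    2 ^ (6 * q * n) * (n - t - t / q / (6 * q))! < (n - t)! := by
  have hq3 : q ≤ q ^ 3 := by
    calc q = q ^ 1 := (pow_one q).symm
      _ ≤ q ^ 3 := Nat.pow_le_pow_right hq (by norm_num)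
  have hq23 : q ^ 2 ≤ q ^ 3 := Nat.pow_le_pow_right hq (by norm_num)
  have hbig : 216 * q ^ 3 + 2 < t := lt_of_lt_of_le Nat.lt_two_pow_self ht
  have hdiv : q * (t / q) + q > t := by
    have := Nat.lt_div_mul_add (a := t) (b := q) (by omega)
    linarith [Nat.mul_comm (t / q) q]
  refine ⟨?_, ?_, ?_⟩
  · have : 6 * q * (t / q) = 6 * (q * (t / q)) := by ring
    omega
  · exact Nat.mul_div_le _ _
  · rw [Nat.div_div_eq_div_mul]
    set w := t / (q * (6 * q)) with hw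
    have hqq : q * (6 * q) = 6 * q ^ 2 := by ring
    have hw1 : 6 * q ^ 2 * w + 6 * q ^ 2 > t := by
      have := Nat.lt_div_mul_add (a := t) (b := q * (6 * q)) (by positivity)
      rw [← hw, hqq] at this
      linarith [Nat.mul_comm w (6 * q ^ 2)]
    have hwt : 6 * q ^ 2 * w ≤ t := by
      rw [← hqq, hw]
      exact Nat.mul_div_le _ _
    have hKw : t ≤ 12 * q ^ 2 * w := by
      have : 12 * q ^ 2 * w = 2 * (6 * q ^ 2 * w) := by ring
      omega
    have hw0 : 1 ≤ w := by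
      by_contra h
      have h0 : w = 0 := Nat.lt_one_iff.mp (not_le.mp h)
      rw [h0, Nat.mul_zero] at hKw
      omega
    have hw2 : 2 * w ≤ t := by
      have h1 : 1 ≤ q ^ 2 := Nat.one_le_pow _ _ hq
      have h2 : 2 * w ≤ 6 * q ^ 2 * w := Nat.mul_le_mul_right w (by omega)
      omega
    have hfac := Nat.factorial_mul_pow_le_factorial (m := n - t - w) (n := w)
    have hsum : n - t - w + w = n - t := by omega
    rw [hsum] at hfac
    have hbase : 2 ^ (216 * q ^ 3 + 1) ≤ n - t - w + 1 := by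
      have : 2 ^ (216 * q ^ 3 + 2) = 2 * 2 ^ (216 * q ^ 3 + 1) := by ring
      omega
    have hexp : 6 * q * n ≤ 216 * q ^ 3 * w := by
      calc 6 * q * n ≤ 6 * q * (3 * t) := Nat.mul_le_mul_left _ h3
        _ ≤ 6 * q * (3 * (12 * q ^ 2 * w)) := by gcongr
        _ = 216 * q ^ 3 * w := by ring
    have hpow : 2 ^ (6 * q * n) < (n - t - w + 1) ^ w := by
      calc 2 ^ (6 * q * n) ≤ 2 ^ (216 * q ^ 3 * w) := Nat.pow_le_pow_right (by norm_num) hexp
        _ = (2 ^ (216 * q ^ 3)) ^ w := by rw [pow_mul]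
        _ < (2 ^ (216 * q ^ 3 + 1)) ^ w := by
            apply Nat.pow_lt_pow_left
            · exact Nat.pow_lt_pow_right (by norm_num) (by omega)
            · omega
        _ ≤ (n - t - w + 1) ^ w := Nat.pow_le_pow_left hbase _
    calc 2 ^ (6 * q * n) * (n - t - w)! < (n - t - w + 1) ^ w * (n - t - w)! :=
          Nat.mul_lt_mul_of_pos_right hpow (Nat.factorial_pos _)
      _ = (n - t - w)! * (n - t - w + 1) ^ w := by ring
      _ ≤ (n - t)! := hfac

theorem double_large (q t n : ℕ) (hq : 1 ≤ q) (ht : 2 ^ (216 * q ^ 3 + 2) ≤ t) (h2 : 2 * t ≤ n)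
    (h3 : n + 6 * (t / q) ≤ 3 * t + 2) (h3' : n ≤ 3 * t)
    (F : Finset (Perm (Fin n))) (hF : IsIntersecting t F) :
    ∃ G : Finset (Perm (Fin n)), IsAvoiding t G ∧ 2 * F.card ≤ G.card := by
  have ht1 : 1 ≤ t := le_trans Nat.one_le_two_pow ht
  obtain ⟨F', hF'⟩ := exists_largest (IsIntersecting t) ⟨F, hF⟩
  obtain ⟨S, hS, hSc⟩ := star_exists (n := n) (t := t) (by omega)
  have h4 := hF'.2 S hS
  have h5 := hF'.2 F hF
  obtain ⟨ha, hb, hc⟩ := numeric q t n hq ht h2 h3'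
  obtain ⟨G, hG, hGc⟩ := double_comb ht1 h2 ha hb h3 (Nat.div_le_self _ _) hc F' hF'.1
    (by omega)
  exact ⟨G, hG, by omega⟩

theorem double_asymp (ε : ℝ) (hε : 0 < ε) : ∃ t₀ : ℕ, ∀ n t : ℕ, t₀ ≤ t → t ≤ n →
    (n : ℝ) ≤ (3 - ε) * t → ∀ F : Finset (Perm (Fin n)), IsIntersecting t F →
      ∃ G : Finset (Perm (Fin n)), IsAvoiding t G ∧ 2 * F.card ≤ G.card := by
  obtain ⟨q, hq⟩ := exists_nat_gt (6 / ε)
  have hq0 : (0 : ℝ) < q := lt_trans (by positivity) hq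
  have hq1 : 1 ≤ q := by exact_mod_cast hq0
  refine ⟨2 ^ (216 * q ^ 3 + 2), fun n t ht htn hnt F hF => ?_⟩
  have ht2 : 2 ≤ t := by
    have h1 : 2 ^ 1 ≤ 2 ^ (216 * q ^ 3 + 2) := Nat.pow_le_pow_right (by norm_num) (by omega)
    omega
  by_cases hn : n ≤ 2 * t - 1
  · exact double_small ht2 htn hn F hF
  · have h6 : (n : ℝ) + 6 * (t / q : ℕ) ≤ 3 * t := by
      have h7 : ((t / q : ℕ) : ℝ) ≤ t / q := Nat.cast_div_le
      have h8 : 6 / (q : ℝ) ≤ ε := by
        rw [div_le_iff₀ hq0]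
        rw [div_lt_iff₀ hε] at hq
        linarith
      have h9 : 6 * ((t : ℝ) / q) ≤ ε * t := by
        have : 6 * ((t : ℝ) / q) = 6 / q * t := by ring
        rw [this]
        exact mul_le_mul_of_nonneg_right h8 (by positivity)
      linarith
    have h6' : n + 6 * (t / q) ≤ 3 * t := by exact_mod_cast h6
    exact double_large q t n hq1 ht (by omega) (by omega) (by omega) F hF

end Pool.Agent.H17.PermInt
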